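import Mathlib

/-!
# Frameworks in the Euclidean plane, the rigidity matroid, redundantly rigid components

The definitions of the problem, for graphs on a finite vertex set.
-/

set_option autoImplicit false

namespace Pool.Agent.helper13.GLOwn

/-- The Euclidean plane. -/
abbrev Plane : Type := EuclideanSpace ℝ (Fin 2)

/-- A placement `p : V → ℝ²` is generic if its `2|V|` coordinates are algebraically independent
over `ℚ`. -/
def Generic {V : Type*} (p : V → Plane) : Prop :=
  AlgebraicIndependent ℚ (fun i : V × Fin 2 => p i.1 i.2)

/-- The frameworks `(G,p)` and `(G,q)` are equivalent: every edge of `G` has the same length. -/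
def Equivalent {V : Type*} (G : SimpleGraph V) (p q : V → Plane) : Prop :=
  ∀ u v : V, G.Adj u v → dist (p u) (p v) = dist (q u) (q v)

/-- The frameworks `(G,p)` and `(G,q)` are congruent: all pairs have the same distance. -/
def Congruent {V : Type*} (p q : V → Plane) : Prop :=
  ∀ u v : V, dist (p u) (p v) = dist (q u) (q v)

/-- The framework `(G,p)` is rigid: for some `ε > 0` every equivalent `(G,q)` with
`‖p v - q v‖ < ε` for all `v` is congruent to `(G,p)`. -/
def RigidFramework {V : Type*} (G : SimpleGraph V) (p : V → Plane) : Prop :=
  ∃ ε : ℝ, 0 < ε ∧ ∀ q : V → Plane, Equivalent G p q → (∀ v : V, dist (p v) (q v) < ε) →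
    Congruent p q

/-- The graph `G` is rigid: all its generic frameworks are rigid. -/
def RigidGraph {V : Type*} (G : SimpleGraph V) : Prop :=
  ∀ p : V → Plane, Generic p → RigidFramework G p

/-- The graph `G` is redundantly rigid: it has at least two vertices, it is rigid and it stays
rigid after deleting any one edge. -/
def RedundantlyRigid {V : Type*} (G : SimpleGraph V) : Prop :=
  2 ≤ Nat.card V ∧ RigidGraph G ∧ ∀ e ∈ G.edgeSet, RigidGraph (G.deleteEdges {e})

/-- `{x,y}` is globally linked in the framework `(G,p)`. -/
def GloballyLinkedIn {V : Type*} (G : SimpleGraph V) (p : V → Plane) (x y : V) : Prop :=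
  ∀ q : V → Plane, Equivalent G p q → dist (q x) (q y) = dist (p x) (p y)

/-- `{x,y}` is globally linked in the graph `G`: it is so in every generic framework `(G,p)`. -/
def GloballyLinked {V : Type*} (G : SimpleGraph V) (x y : V) : Prop :=
  ∀ p : V → Plane, Generic p → GloballyLinkedIn G p x y

open Classical in
/-- The row of `uv` in the rigidity matrix of the placement `p`: `p u - p v` at `u`,
`p v - p u` at `v` and zero elsewhere. -/
noncomputable def row {V : Type*} (p : V → Plane) (u v : V) : V → Plane :=
  fun w => if w = u then p u - p v else if w = v then p v - p u else 0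

theorem row_symm {V : Type*} (p : V → Plane) (u v : V) : row p u v = row p v u := by
  funext w
  unfold row
  by_cases h1 : w = u <;> by_cases h2 : w = v
  · rw [if_pos h1, if_pos h2, ← h1, ← h2]
  · rw [if_pos h1, if_neg h2, if_pos h1]
  · rw [if_neg h1, if_pos h2, if_pos h2]
  · rw [if_neg h1, if_neg h2, if_neg h2, if_neg h1]

/-- The row of an edge `e`. -/
noncomputable def edgeRow {V : Type*} (p : V → Plane) (e : Sym2 V) : V → Plane :=
  Sym2.lift ⟨row p, row_symm p⟩ e

/-- The set `C` of edges is independent in the rigidity matroid: its rows are linearly independent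
at the generic placements. -/
def Independent {V : Type*} (C : Set (Sym2 V)) : Prop :=
  ∀ p : V → Plane, Generic p → LinearIndepOn ℝ (edgeRow p) C

/-- The circuits of the rigidity matroid of `G`: the dependent sets of edges all of whose subsets
with one edge less are independent. -/
def Circuit {V : Type*} (G : SimpleGraph V) (C : Set (Sym2 V)) : Prop :=
  C ⊆ G.edgeSet ∧ ¬ Independent C ∧ ∀ e ∈ C, Independent (C \ {e})

/-- A bridge of the rigidity matroid of `G`: an edge of `G` in no circuit. -/
def Bridge {V : Type*} (G : SimpleGraph V) (e : Sym2 V) : Prop :=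
  e ∈ G.edgeSet ∧ ∀ C : Set (Sym2 V), Circuit G C → e ∉ C

/-- The redundantly rigid components of `G`: the maximal redundantly rigid subgraphs and the
one-edge subgraphs of the bridges. -/
def RRComponent {V : Type*} (G : SimpleGraph V) (K : G.Subgraph) : Prop :=
  Maximal (fun H : G.Subgraph => RedundantlyRigid H.coe) K ∨
    ∃ (u v : V) (h : G.Adj u v), Bridge G s(u, v) ∧ K = G.subgraphOfAdj h

end Pool.Agent.helper13.GLOwn
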