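import Mathlib
import Pool.Agent.helper13.GL.Final
import Pool.Agent.helper13.GLOwn.Def

/-!
# Extension of generic placements and the two models of the plane
-/

set_option autoImplicit false

namespace Pool.Agent.helper13.GLOwn

open Pool.Agent.helper13.GL

/-- a new transcendental coordinate -/
theorem exists_option {ι : Type*} [Finite ι] {x : ι → ℝ} (hx : AlgebraicIndependent ℚ x) :
    ∃ a : ℝ, AlgebraicIndependent ℚ (fun o : Option ι => o.elim a x) := by
  have hc : Countable (MvPolynomial ι ℚ) := by
    rw [← Cardinal.mk_le_aleph0_iff]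
    refine MvPolynomial.cardinalMk_le_max_lift.trans ?_
    refine max_le (max_le ?_ ?_) le_rfl
    · rw [Cardinal.lift_le_aleph0]; exact Cardinal.mk_le_aleph0
    · rw [Cardinal.lift_le_aleph0]; exact Cardinal.mk_le_aleph0
  have hc2 : Countable (Algebra.adjoin ℚ (Set.range x)) := by
    have h1 : Function.Surjective (MvPolynomial.aeval (R := ℚ) x).rangeRestrict :=
      (MvPolynomial.aeval (R := ℚ) x).rangeRestrict_surjective
    have h2 : Countable (MvPolynomial.aeval (R := ℚ) x).range := h1.countable
    rwa [← Algebra.adjoin_range_eq_range_aeval] at h2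
  have hc3 : {a : ℝ | IsAlgebraic (Algebra.adjoin ℚ (Set.range x)) a}.Countable :=
    Algebraic.countable _ _
  obtain ⟨a, ha⟩ : ∃ a : ℝ, ¬ IsAlgebraic (Algebra.adjoin ℚ (Set.range x)) a := by
    by_contra hcon
    push Not at hcon
    have h1 : {a : ℝ | IsAlgebraic (Algebra.adjoin ℚ (Set.range x)) a} = Set.univ := by
      ext a; simp [hcon a]
    rw [h1] at hc3
    exact Set.not_countable_univ hc3
  exact ⟨a, (hx.option_iff_transcendental a).mpr ha⟩

/-- extension of an algebraically independent family by finitely many numbers -/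
theorem exists_sum {ι : Type*} [Finite ι] {x : ι → ℝ} (hx : AlgebraicIndependent ℚ x)
    (κ : Type*) [Finite κ] : ∃ y : κ → ℝ, AlgebraicIndependent ℚ (Sum.elim x y) := by
  induction κ using Finite.induction_empty_option with
  | of_equiv e ih =>
    obtain ⟨y, hy⟩ := ih
    refine ⟨y ∘ e.symm, ?_⟩
    rw [← algebraicIndependent_equiv (Equiv.sumCongr (Equiv.refl ι) e)]
    convert hy using 1
    funext i
    rcases i with i | i
    · rfl
    · simp
  | h_empty =>
    refine ⟨fun k => k.elim, ?_⟩
    rw [← algebraicIndependent_equiv (Equiv.sumEmpty ι PEmpty).symm]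
    have h1 : (Sum.elim x fun k : PEmpty => k.elim) ∘ ⇑(Equiv.sumEmpty ι PEmpty).symm = x := by
      funext i
      simp
    rw [h1]
    exact hx
  | h_option ih =>
    obtain ⟨y, hy⟩ := ih
    obtain ⟨a, ha⟩ := exists_option hy
    refine ⟨fun o => o.elim a y, ?_⟩
    rename_i α _
    have h1 := ha.comp (Sum.elim (fun i : ι => some (Sum.inl i))
      (fun o : Option α => o.map (Sum.inr : α → ι ⊕ α))) (by
        rintro (i | (_ | i)) (j | (_ | j)) h <;> simp_all)
    convert h1 using 1
    funext i
    rcases i with i | (_ | i) <;> rfl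

/-- the coordinates of a placement in the complex plane -/
noncomputable def toC (z : Plane) : ℂ := ⟨z 0, z 1⟩

noncomputable def toP (z : ℂ) : Plane := !₂[z.re, z.im]

theorem toP_zero (z : ℂ) : toP z 0 = z.re := rfl

theorem toP_one (z : ℂ) : toP z 1 = z.im := rfl

theorem toC_toP (z : ℂ) : toC (toP z) = z := rfl

theorem dist_toC (a b : Plane) : dist (toC a) (toC b) = dist a b := by
  rw [Complex.dist_eq_re_im, EuclideanSpace.dist_eq, Fin.sum_univ_two, Real.dist_eq, Real.dist_eq,
    sq_abs, sq_abs]
  rfl

theorem generic_iff {V : Type*} (p : V → Plane) : Generic p ↔ Gen (fun v => toC (p v)) := by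
  let e : V ⊕ V ≃ V × Fin 2 :=
    { toFun := Sum.elim (fun v => (v, 0)) (fun v => (v, 1))
      invFun := fun i => if i.2 = 0 then Sum.inl i.1 else Sum.inr i.1
      left_inv := by rintro (i | i) <;> simp
      right_inv := by
        rintro ⟨v, i⟩
        fin_cases i <;> simp }
  unfold Generic Gen
  rw [← algebraicIndependent_equiv e]
  have h1 : (fun i : V × Fin 2 => p i.1 i.2) ∘ e = co (fun v => toC (p v)) := by
    funext i
    rcases i with i | i <;> rfl
  rw [h1]

/-- extension of generic placements -/
theorem exists_ext {V : Type*} [Finite V] (W : Set V) {p : W → Plane} (hp : Generic p) :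
    ∃ p' : V → ℂ, Gen p' ∧ ∀ a : W, p' a = toC (p a) := by
  classical
  obtain ⟨y, hy⟩ := exists_sum hp (V × Fin 2)
  let f : V × Fin 2 → (W × Fin 2) ⊕ (V × Fin 2) := fun i =>
    if h : i.1 ∈ W then Sum.inl (⟨i.1, h⟩, i.2) else Sum.inr i
  have hf : Function.Injective f := by
    rintro ⟨a, i⟩ ⟨b, j⟩ h
    simp only [f] at h
    split_ifs at h with h1 h2 h2
    · simp only [Sum.inl.injEq, Prod.mk.injEq, Subtype.mk.injEq] at h
      exact Prod.ext h.1 h.2
    · exact Sum.inr_injective h
  have h1 := hy.comp f hf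
  let q : V → Plane := fun v => !₂[(Sum.elim (fun i : W × Fin 2 => p i.1 i.2) y ∘ f) (v, 0),
    (Sum.elim (fun i : W × Fin 2 => p i.1 i.2) y ∘ f) (v, 1)]
  have hq : Generic q := by
    unfold Generic
    convert h1 using 1
    funext ⟨v, i⟩
    fin_cases i <;> rfl
  refine ⟨fun v => toC (q v), (generic_iff q).mp hq, fun a => ?_⟩
  have h2 : ∀ i : Fin 2, (Sum.elim (fun i : W × Fin 2 => p i.1 i.2) y ∘ f) (a.1, i) = p a i := by
    intro i
    simp only [f, Function.comp_apply]
    rw [dif_pos a.2]
    rfl
  have h3 : q a.1 = p a := by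
    ext i
    fin_cases i
    · exact h2 0
    · exact h2 1
  simp only
  rw [h3]

end Pool.Agent.helper13.GLOwn
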