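import Mathlib
import Pool.Agent.helper13.GLOwn.Gen

/-!
# Bars of a tight structure and bridges of the rigidity matroid
-/

set_option autoImplicit false

namespace Pool.Agent.helper13.GLOwn

open Pool.Agent.helper13.GL Finset

/-- infinitesimal stretching of one bar -/
theorem inf_stretch {V : Type*} [Fintype V] [DecidableEq V] {S : Finset V} {F : Finset (Finset V)}
    (hT : Tight S F) {p : V → ℂ} (hr : Rig S F p) (hn : NC F p) {x y : V}
    (hxy : ({x, y} : Finset V) ∈ F) (hpxy : p x ≠ p y) :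
    ∃ v : V → ℂ, Mot (F.erase {x, y}) p v ∧ ip (p x - p y) (v x - v y) ≠ 0 := by
  obtain ⟨a0, ha0, b0, hb0, hab⟩ := hT.two_points hn
  set x0 : E1 S F := (fun a => p a, fun _ => (0, 0)) with hx0
  set y0 : J1 F → ℂ := fun j => if j.1.1 = {x, y} ∧ j.2.1 = x then p x - p y else 0 with hy0
  have hsurj := Phi'_surj hT (u := fun _ => 1) (fun _ => by simp [ip]) hr hn (x0 := x0)
    (fun _ => rfl) (fun _ => rfl) ha0 hb0 hab
  have hmem : y0 ∈ LinearMap.range
      (Phi' hT.1.sub (fun _ => 1) x0 : E1 S F →ₗ[ℝ] (J1 F → ℂ)) := by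
    rw [hsurj]; exact Submodule.mem_top
  obtain ⟨z, hz⟩ := hmem
  have hne : x ≠ y := fun e => hpxy (by rw [e])
  set v : V → ℂ := fun a => if h : a ∈ S then z.1 ⟨a, h⟩ else 0 with hv
  have hvS : ∀ a (h : a ∈ S), v a = z.1 ⟨a, h⟩ := fun a h => by simp only [hv]; rw [dif_pos h]
  have heq : ∀ (P : Finset V) (hP : P ∈ F) (a : V) (ha : a ∈ P),
      v a + p a * (Complex.I * ((z.2 ⟨P, hP⟩).1 : ℂ)) + (z.2 ⟨P, hP⟩).2 =
        if P = {x, y} ∧ a = x then p x - p y else 0 := by
    intro P hP a ha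
    have h1 := congrFun hz ⟨⟨P, hP⟩, ⟨a, ha⟩⟩
    have h2 := Phi'_apply hT.1.sub (fun _ => 1) x0 (fun _ => rfl) z ⟨⟨P, hP⟩, ⟨a, ha⟩⟩
    rw [hvS a (hT.1.sub P hP ha)]
    rw [one_mul] at h2
    exact h2.symm.trans h1
  refine ⟨v, ?_, ?_⟩
  · intro P hP a ha b hb
    obtain ⟨hPne, hPF⟩ := mem_erase.mp hP
    have h1 := heq P hPF a ha
    have h2 := heq P hPF b hb
    rw [if_neg (fun h => hPne h.1)] at h1 h2
    have h3 : v a - v b = ((-(z.2 ⟨P, hPF⟩).1 : ℝ) : ℂ) * Complex.I * (p a - p b) := by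
      push_cast
      linear_combination h1 - h2
    rw [h3, ip_rot]
  · have h1 := heq _ hxy x (by simp)
    have h2 := heq _ hxy y (by simp)
    rw [if_pos ⟨rfl, rfl⟩] at h1
    rw [if_neg (fun h => hne h.2.symm)] at h2
    have h3 : v x - v y = (p x - p y) +
        ((-(z.2 ⟨_, hxy⟩).1 : ℝ) : ℂ) * Complex.I * (p x - p y) := by
      push_cast
      linear_combination h1 - h2
    rw [h3, ip_add_right, ip_rot, add_zero]
    intro h0
    exact hpxy (sub_eq_zero.mp (ip_self_eq_zero.mp h0))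

/-- pairing of a row with a motion -/
noncomputable def pairing {V : Type*} [Fintype V] (v : V → ℂ) : (V → Plane) →ₗ[ℝ] ℝ where
  toFun r := ∑ w, (r w 0 * (v w).re + r w 1 * (v w).im)
  map_add' r s := by
    rw [← sum_add_distrib]
    refine sum_congr rfl fun w _ => ?_
    simp only [Pi.add_apply, PiLp.add_apply]
    ring
  map_smul' c r := by
    rw [RingHom.id_apply, smul_eq_mul, mul_sum]
    refine sum_congr rfl fun w _ => ?_
    simp only [Pi.smul_apply, PiLp.smul_apply, smul_eq_mul]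
    ring

theorem pairing_row {V : Type*} [Fintype V] (v : V → ℂ) (p : V → Plane) {a b : V} (hab : a ≠ b) :
    pairing v (row p a b) = ip (toC (p a) - toC (p b)) (v a - v b) := by
  classical
  change ∑ w, (row p a b w 0 * (v w).re + row p a b w 1 * (v w).im) = _
  have h1 : ∀ w : V, (row p a b w 0 * (v w).re + row p a b w 1 * (v w).im) =
      (if w = a then ip (toC (p a) - toC (p b)) (v a) else 0) +
      (if w = b then ip (toC (p b) - toC (p a)) (v b) else 0) := by
    intro w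
    unfold row
    by_cases h1 : w = a
    · subst h1
      rw [if_pos rfl, if_pos rfl, if_neg hab, add_zero]
      unfold ip toC
      simp
    · by_cases h2 : w = b
      · subst h2
        rw [if_neg h1, if_pos rfl, if_neg h1, if_pos rfl, zero_add]
        unfold ip toC
        simp
      · rw [if_neg h1, if_neg h2, if_neg h1, if_neg h2]
        simp
  rw [sum_congr rfl fun w _ => h1 w, sum_add_distrib, sum_ite_eq', sum_ite_eq',
    if_pos (mem_univ _), if_pos (mem_univ _)]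
  unfold ip
  simp only [Complex.sub_re, Complex.sub_im]
  ring

/-- a bar of an optimal cover is a bridge -/
theorem bridge_of_bar {V : Type*} [Fintype V] [DecidableEq V] (G : SimpleGraph V)
    {E F : Finset (Finset V)} (memE : ∀ e, e ∈ E ↔ ∃ u v, G.Adj u v ∧ e = {u, v})
    (hF : Opt E F) {x y : V} (hxy : G.Adj x y) (hP : ({x, y} : Finset V) ∈ F) :
    Bridge G s(x, y) := by
  refine ⟨hxy, fun C hC hxC => ?_⟩
  obtain ⟨hCG, hdep, hmin⟩ := hC
  have hV2 : 2 ≤ (univ : Finset V).card := by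
    rw [← card_pair hxy.ne]; exact card_le_card (subset_univ _)
  obtain ⟨F', hFF', hT, _⟩ := exists_tight hF.sparse hV2
  unfold Independent at hdep
  push Not at hdep
  obtain ⟨p, hp, hdep⟩ := hdep
  have hp' := (generic_iff p).mp hp
  obtain ⟨v, hv, hne⟩ := inf_stretch hT (rig_gen hT hp') (NC.of_good hp'.good hT.1.two)
    (hFF' hP) (hp'.good.1 x y hxy.ne)
  have hins : C = insert s(x, y) (C \ {s(x, y)}) := by
    rw [Set.insert_sdiff_singleton, Set.insert_eq_of_mem hxC]
  rw [hins, linearIndepOn_insert (by simp)] at hdep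
  push Not at hdep
  have hmem := hdep (hmin _ hxC p hp)
  have hle : Submodule.span ℝ (edgeRow p '' (C \ {s(x, y)})) ≤ LinearMap.ker (pairing v) := by
    rw [Submodule.span_le]
    rintro _ ⟨e, he, rfl⟩
    induction e using Sym2.ind with
    | _ a b =>
      have hab : G.Adj a b := hCG he.1
      have hne2 : s(a, b) ≠ s(x, y) := he.2
      change pairing v (row p a b) = 0
      rw [pairing_row v p hab.ne]
      obtain ⟨P, hPF, heP⟩ := hF.cov.2 {a, b} ((memE _).mpr ⟨a, b, hab, rfl⟩)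
      refine hv P (mem_erase.mpr ⟨?_, hFF' hPF⟩) a (heP (by simp)) b (heP (by simp))
      rintro rfl
      apply hne2
      have h1 : ({a, b} : Finset V) = {x, y} :=
        eq_of_subset_of_card_le heP (by rw [card_pair hab.ne, card_pair hxy.ne])
      have ha : a ∈ ({x, y} : Finset V) := h1 ▸ (by simp)
      have hb : b ∈ ({x, y} : Finset V) := h1 ▸ (by simp)
      simp only [mem_insert, mem_singleton] at ha hb
      rcases ha with rfl | rfl <;> rcases hb with rfl | rfl
      · exact absurd rfl hab.ne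
      · rfl
      · exact Sym2.eq_swap
      · exact absurd rfl hab.ne
  have h0 : pairing v (row p x y) = 0 := hle hmem
  rw [pairing_row v p hxy.ne] at h0
  exact hne h0

/-- the property of the frozen statement -/
def RRC {V : Type*} (G : SimpleGraph V) (W : Finset V) : Prop :=
  (∀ p : V → ℂ, Gen p → ∃ ε : ℝ, 0 < ε ∧ ∀ q : V → ℂ,
      (∀ u ∈ W, ∀ v ∈ W, G.Adj u v → dist (q u) (q v) = dist (p u) (p v)) →
      (∀ v ∈ W, dist (p v) (q v) < ε) →
      ∀ u ∈ W, ∀ v ∈ W, dist (q u) (q v) = dist (p u) (p v)) ∧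
  (∀ a ∈ W, ∀ b ∈ W, G.Adj a b →
    ∀ p : V → ℂ, Gen p → ∃ ε : ℝ, 0 < ε ∧ ∀ q : V → ℂ,
        (∀ u ∈ W, ∀ v ∈ W, G.Adj u v → s(u, v) ≠ s(a, b) →
          dist (q u) (q v) = dist (p u) (p v)) →
        (∀ v ∈ W, dist (p v) (q v) < ε) →
        ∀ u ∈ W, ∀ v ∈ W, dist (q u) (q v) = dist (p u) (p v))

/-- large pieces of an optimal cover are redundantly rigid -/
theorem rrc_of_piece {V : Type*} [Fintype V] [DecidableEq V] (G : SimpleGraph V)
    {E F : Finset (Finset V)} (memE : ∀ e, e ∈ E ↔ ∃ u v, G.Adj u v ∧ e = {u, v})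
    (hF : Opt E F) {P : Finset V} (hP : P ∈ F) (h3 : 3 ≤ P.card) : RRC G P := by
  have hE : ∀ e ∈ E, e.card = 2 := by
    intro e he
    obtain ⟨u, v, huv, rfl⟩ := (memE e).mp he
    exact card_pair huv.ne
  have hedge : ∀ (p q : V → ℂ) (e : Finset V), (∃ u v, e = {u, v} ∧
      dist (q u) (q v) = dist (p u) (p v)) → ∀ a ∈ e, ∀ b ∈ e,
      dist (q a) (q b) = dist (p a) (p b) := by
    rintro p q e ⟨u, v, rfl, h⟩ a ha b hb
    simp only [mem_insert, mem_singleton] at ha hb
    rcases ha with rfl | rfl <;> rcases hb with rfl | rfl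
    · rw [dist_self, dist_self]
    · exact h
    · rw [dist_comm, h, dist_comm]
    · rw [dist_self, dist_self]
  have hred : ∀ a ∈ P, ∀ b ∈ P, G.Adj a b →
      ∀ p : V → ℂ, Gen p → ∃ ε : ℝ, 0 < ε ∧ ∀ q : V → ℂ,
        (∀ u ∈ P, ∀ v ∈ P, G.Adj u v → s(u, v) ≠ s(a, b) →
          dist (q u) (q v) = dist (p u) (p v)) →
        (∀ v ∈ P, dist (p v) (q v) < ε) →
        ∀ u ∈ P, ∀ v ∈ P, dist (q u) (q v) = dist (p u) (p v) := by
    intro a ha b hb hab p hp
    obtain ⟨H, hHE, hfH, hHT⟩ := hF.redundant hE hP h3 {a, b} ((memE _).mpr ⟨a, b, hab, rfl⟩)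
      (by
        intro c hc
        simp only [mem_insert, mem_singleton] at hc
        rcases hc with rfl | rfl <;> assumption)
    obtain ⟨ε, hε, h4⟩ := rigid_of_tight hHT hp
    refine ⟨ε, hε, fun q hq hd => h4 q ?_ hd⟩
    intro e he
    apply hedge
    obtain ⟨u, v, huv, rfl⟩ := (memE e).mp (hHE he)
    have hsub := hHT.1.sub _ he
    refine ⟨u, v, rfl, hq u (hsub (by simp)) v (hsub (by simp)) huv ?_⟩
    intro h5
    apply hfH
    have h6 : ({u, v} : Finset V) = {a, b} := by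
      rcases Sym2.eq_iff.mp h5 with ⟨rfl, rfl⟩ | ⟨rfl, rfl⟩
      · rfl
      · exact pair_comm _ _
    rw [← h6]; exact he
  refine ⟨?_, hred⟩
  intro p hp
  obtain ⟨f, hf, hfP⟩ := hF.exists_edge hP
  obtain ⟨u, v, huv, rfl⟩ := (memE f).mp hf
  obtain ⟨ε, hε, h4⟩ := hred u (hfP (by simp)) v (hfP (by simp)) huv p hp
  exact ⟨ε, hε, fun q hq hd => h4 q (fun u hu v hv huv _ => hq u hu v hv huv) hd⟩

/-- from the vertex set to the induced subgraph -/
theorem rr_induce {V : Type*} [Fintype V] (G : SimpleGraph V) {W : Finset V} (hW : RRC G W)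
    {x y : V} (hx : x ∈ W) (hy : y ∈ W) (hxy : x ≠ y) :
    RedundantlyRigid ((⊤ : G.Subgraph).induce (W : Set V)).coe := by
  classical
  set K : G.Subgraph := (⊤ : G.Subgraph).induce (W : Set V) with hK
  have hKW : ∀ a : K.verts, a.1 ∈ W := fun a => a.2
  have hadj : ∀ a b : K.verts, K.coe.Adj a b ↔ G.Adj a.1 b.1 := by
    intro a b
    have h1 : K.coe.Adj a b ↔
      (a.1 ∈ (W : Set V) ∧ b.1 ∈ (W : Set V) ∧ (⊤ : G.Subgraph).Adj a.1 b.1) := Iff.rfl
    rw [h1, SimpleGraph.Subgraph.top_adj]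
    exact ⟨fun h => h.2.2, fun h => ⟨a.2, b.2, h⟩⟩
  -- extension of a placement of the subgraph
  have hext : ∀ (p' : V → ℂ) (q : K.verts → Plane), ∃ q' : V → ℂ,
      ∀ a : K.verts, q' a = toC (q a) := by
    intro p' q
    refine ⟨fun a => if h : a ∈ K.verts then toC (q ⟨a, h⟩) else 0, fun a => ?_⟩
    simp only
    rw [dif_pos a.2]
  refine ⟨?_, ?_, ?_⟩
  · have h1 : ({⟨x, hx⟩, ⟨y, hy⟩} : Finset K.verts).card = 2 := by
      apply card_pair
      intro h
      exact hxy (congrArg Subtype.val h)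
    rw [Nat.card_eq_fintype_card, ← h1]
    exact card_le_univ _
  · intro p hp
    obtain ⟨p', hp', hpp⟩ := exists_ext K.verts hp
    obtain ⟨ε, hε, h1⟩ := hW.1 p' hp'
    refine ⟨ε, hε, fun q hq hd => ?_⟩
    obtain ⟨q', hqq⟩ := hext p' q
    have h2 := h1 q' (by
      intro u hu v hv huv
      have e1 := hpp ⟨u, hu⟩
      have e2 := hpp ⟨v, hv⟩
      have e3 := hqq ⟨u, hu⟩
      have e4 := hqq ⟨v, hv⟩
      simp only at e1 e2 e3 e4
      rw [e1, e2, e3, e4, dist_toC, dist_toC]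
      exact (hq ⟨u, hu⟩ ⟨v, hv⟩ ((hadj _ _).mpr huv)).symm) (by
      intro v hv
      have e2 := hpp ⟨v, hv⟩
      have e4 := hqq ⟨v, hv⟩
      simp only at e2 e4
      rw [e2, e4, dist_toC]
      exact hd ⟨v, hv⟩)
    intro a b
    have h3 := h2 a.1 (hKW a) b.1 (hKW b)
    rw [hpp a, hpp b, hqq a, hqq b, dist_toC, dist_toC] at h3
    exact h3.symm
  · intro e he
    induction e using Sym2.ind with
    | _ a b =>
      have hab : G.Adj a.1 b.1 := (hadj a b).mp he
      intro p hp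
      obtain ⟨p', hp', hpp⟩ := exists_ext K.verts hp
      obtain ⟨ε, hε, h1⟩ := hW.2 a.1 (hKW a) b.1 (hKW b) hab p' hp'
      refine ⟨ε, hε, fun q hq hd => ?_⟩
      obtain ⟨q', hqq⟩ := hext p' q
      have h2 := h1 q' (by
        intro u hu v hv huv huvne
        have e1 := hpp ⟨u, hu⟩
        have e2 := hpp ⟨v, hv⟩
        have e3 := hqq ⟨u, hu⟩
        have e4 := hqq ⟨v, hv⟩
        simp only at e1 e2 e3 e4
        rw [e1, e2, e3, e4, dist_toC, dist_toC]
        refine (hq ⟨u, hu⟩ ⟨v, hv⟩ ?_).symm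
        rw [SimpleGraph.deleteEdges_adj]
        refine ⟨(hadj _ _).mpr huv, fun h => huvne ?_⟩
        have h5 := congrArg (Sym2.map (Subtype.val : K.verts → V)) (Set.mem_singleton_iff.mp h)
        simpa using h5) (by
        intro v hv
        have e2 := hpp ⟨v, hv⟩
        have e4 := hqq ⟨v, hv⟩
        simp only at e2 e4
        rw [e2, e4, dist_toC]
        exact hd ⟨v, hv⟩)
      intro c d
      have h3 := h2 c.1 (hKW c) d.1 (hKW d)
      rw [hpp c, hpp d, hqq c, hqq d, dist_toC, dist_toC] at h3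
      exact h3.symm

/-- a component above the induced subgraph -/
theorem component_of_rrc {V : Type*} [Fintype V] (G : SimpleGraph V) {W : Finset V}
    (hW : RRC G W) {x y : V} (hx : x ∈ W) (hy : y ∈ W) (hxy : x ≠ y) :
    ∃ K : G.Subgraph, RRComponent G K ∧ x ∈ K.verts ∧ y ∈ K.verts := by
  have h1 := rr_induce G hW hx hy hxy
  obtain ⟨K, hK, hmax⟩ := (Set.toFinite {H : G.Subgraph | RedundantlyRigid H.coe}).exists_le_maximal
    h1
  exact ⟨K, Or.inl hmax, hK.1 hx, hK.1 hy⟩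

end Pool.Agent.helper13.GLOwn
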